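import Pool.Agent.U729.LT.Mask

/-!
# The data of the doubled sphere: the cycle, the lifts, the colours
-/

set_option autoImplicit false

namespace Pool.Agent.U729.LT.D54

open Pool.Agent.U729.LT

/-- the cycle modulo `3`: 72 tetrahedra on 19 vertices, with coefficients -/
def zs : List (ℕ × ℕ) :=
  [(2085, 1), (8229, 2), (4165, 2), (8261, 1), (2181, 1), (16517, 2), (4357, 2), (16645, 1),
   (2565, 1), (33285, 2), (5125, 2), (33797, 1), (2089, 2), (65577, 1), (4169, 1), (262217, 2),
   (2185, 2), (131209, 1), (4361, 1), (65801, 2), (2569, 2), (262665, 1), (5129, 1), (132105, 2),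
   (8241, 1), (65585, 2), (8273, 2), (262225, 1), (16529, 1), (131217, 2), (16657, 2), (65809, 1),
   (33297, 1), (262673, 2), (33809, 2), (132113, 1), (2086, 2), (8230, 1), (4166, 1), (8262, 2),
   (2182, 2), (16518, 1), (4358, 1), (16646, 2), (2566, 2), (33286, 1), (5126, 1), (33798, 2),
   (2090, 1), (65578, 2), (4170, 2), (262218, 1), (2186, 1), (131210, 2), (4362, 2), (65802, 1),
   (2570, 1), (262666, 2), (5130, 2), (132106, 1), (8242, 2), (65586, 1), (8274, 1), (262226, 2),
   (16530, 2), (131218, 1), (16658, 1), (65810, 2), (33298, 2), (262674, 1), (33810, 1), (132114, 2)]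

/-- the two lifts of every vertex -/
def js : List (ℕ × ℕ) :=
  [(22, 22), (23, 24), (25, 25), (26, 27), (28, 29), (9, 9), (14, 15), (10, 11), (16, 17), (12, 13), (18, 19), (0, 0), (1, 31), (2, 32), (3, 33), (4, 34), (5, 35), (6, 36), (7, 37)]

/-- the vertices with one lift -/
def U : ℕ := 2085

/-- the colours -/
def c (v : Fin 19) : Fin 4 := if v.1 < 2 then 0 else if v.1 < 5 then 1 else if v.1 < 11 then 2 else 3

/-- `Data`, from the lifts. -/
theorem data {w : ℕ} (hw : 38 ≤ w) {fs : List ℕ} (h : lfts fs js (zs.map Prod.fst) = true) : Data 3 w 19 3 fs zs js U c where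
  js_len := by decide +kernel
  z_lt := by decide +kernel
  z_card := by decide +kernel
  z_head := by decide +kernel
  z_cyc := by decide +kernel
  cov := by decide +kernel
  j_lt := fun v a => lt_of_lt_of_le ((by decide +kernel : ∀ v : Fin 19, ∀ a, jp js v.1 a < 38) v a) hw
  j_inj := by decide +kernel
  j_U := by decide +kernel
  cliqueU := by decide +kernel
  col := by decide +kernel
  flag := by decide +kernel
  lifts := h

/-- `Data` for the list of the facets at the used places, from the check with the masks. -/
theorem dataM {w N V : ℕ} (hw : 38 ≤ w) {m : ℕ → ℕ} (hV : V < 2 ^ N) (h : lftsM V m js (zs.map Prod.fst) = true) :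
    Data 3 w 19 3 (fsM w N V m) zs js U c :=
  data hw (lfts_fsM hV (fun x hx => by
    have := (by decide +kernel : ∀ x ∈ js, x.1 < 38 ∧ x.2 < 38) x hx
    omega) h)

/-- `Data` for a list with one member that contains everything. -/
theorem data0 : Data 3 512 19 3 [2 ^ 512 - 1] zs js U c := data (by norm_num) (by decide +kernel)

end Pool.Agent.U729.LT.D54
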